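import Pool.Agent.W795.HE.Stm
import Mathlib.Analysis.InnerProductSpace.ProdL2

/-!
Project HE (helper795), part CMP: approximation by compatible initial values.
-/

set_option autoImplicit false

open Set WithLp
open scoped InnerProductSpace

namespace Pool.Agent.W405.HE.Cmp

open H772R2.NSR (Frame)
open Pool.Agent.W795.TQ (Univ)

variable {H K : Type} [NormedAddCommGroup H] [InnerProductSpace ℝ H]
  [NormedAddCommGroup K] [InnerProductSpace ℝ K]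

/-- the real inequality behind the a priori bound -/
theorem young {n ν s r Z Φ c κ : ℝ} (hν : 0 < ν) (hκ : c * Z = κ * ν) (hn : 65 * κ ^ 4 * ν ≤ n)
    (h : n * s ^ 4 + ν * r ^ 4 ≤ Φ * r ^ 2 + ν * Z * r ^ 2 + c * Z ^ 2 * (s * r) +
      c * Z * (s * r ^ 3)) : r ^ 4 ≤ 4 * (Φ / ν) ^ 2 + 6 * Z ^ 2 := by
  obtain ⟨φ, hφ⟩ : ∃ φ, φ = Φ / ν := ⟨_, rfl⟩
  have hΦ : Φ = φ * ν := by rw [hφ]; field_simp
  rw [← hφ]
  have e1 : c * Z ^ 2 * (s * r) = ν * (κ * Z * (s * r)) := by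
    rw [show c * Z ^ 2 * (s * r) = (c * Z) * (Z * (s * r)) by ring, hκ]; ring
  have e2 : c * Z * (s * r ^ 3) = ν * (κ * (s * r ^ 3)) := by rw [hκ]; ring
  rw [e1, e2, hΦ] at h
  have h1 : 65 * κ ^ 4 * ν * s ^ 4 ≤ n * s ^ 4 :=
    mul_le_mul_of_nonneg_right hn (by positivity)
  have h2 : ν * (65 * κ ^ 4 * s ^ 4 + r ^ 4) ≤
      ν * (φ * r ^ 2 + Z * r ^ 2 + κ * Z * (s * r) + κ * (s * r ^ 3)) := by linarith
  have h3 := le_of_mul_le_mul_left h2 hν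
  have s1 := sq_nonneg (r ^ 2 - 4 * φ)
  have s2 := sq_nonneg (r ^ 2 - 4 * Z)
  have s3 := sq_nonneg (2 * Z - κ * (s * r))
  have s4 := sq_nonneg (r ^ 2 - κ ^ 2 * s ^ 2)
  have s5 := sq_nonneg (r ^ 2 - 8 * κ * (s * r))
  have s6 := sq_nonneg (r ^ 2 / 4 - 8 * κ ^ 2 * s ^ 2)
  have s7 : 0 ≤ κ ^ 4 * s ^ 4 := by positivity
  nlinarith

theorem apriori {W : Submodule ℝ (H × K)} {m : H → K} {C c ν n : ℝ} {F0 : K} {x0 x : H}
    {z0 ζ : K} (hF : Frame W m C) (hU : Univ W m c) (hν : 0 < ν) (h0 : (x0, z0) ∈ W)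
    (hx : (x, ζ) ∈ W) (hn : 65 * (c * ‖z0‖ / ν) ^ 4 * ν ≤ n)
    (heq : ∀ p ∈ W, ⟪F0 - ν • ζ + m x, p.2⟫_ℝ = ⟪n • (x - x0), p.1⟫_ℝ) :
    ‖ζ‖ ^ 2 ≤ 14 * (‖z0‖ ^ 2 + ‖F0‖ ^ 2 / ν ^ 2) := by
  have hd : (x - x0, ζ - z0) ∈ W := W.sub_mem hx h0
  have h1 := heq _ hd
  simp only at h1
  have h2 := hF.anti _ hx _ h0
  simp only at h2
  have h3 := hU.tri _ h0 _ hd
  have h4 := hU.quart _ hd
  simp only at h3 h4
  set δ := x - x0 with hδ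
  set η := ζ - z0 with hη
  have hζ : ζ = η + z0 := by rw [hη]; abel
  have e1 : ⟪F0 - ν • ζ + m x, η⟫_ℝ = ⟪F0, η⟫_ℝ - ν * (‖η‖ ^ 2 + ⟪z0, η⟫_ℝ) + ⟪m x, η⟫_ℝ := by
    rw [inner_add_left, inner_sub_left, inner_smul_left, hζ, inner_add_left,
      real_inner_self_eq_norm_sq]
    simp
  have e2 : ⟪n • δ, δ⟫_ℝ = n * ‖δ‖ ^ 2 := by
    rw [inner_smul_left, real_inner_self_eq_norm_sq]; simp
  have e3 : ⟪m x, η⟫_ℝ = ⟪m x0, η⟫_ℝ - ⟪m δ, z0⟫_ℝ := by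
    rw [inner_sub_left] at h2; linarith
  rw [e1, e2, e3] at h1
  have b1 : ⟪F0, η⟫_ℝ ≤ ‖F0‖ * ‖η‖ := real_inner_le_norm _ _
  have b2 : -⟪z0, η⟫_ℝ ≤ ‖z0‖ * ‖η‖ := by
    have := abs_real_inner_le_norm z0 η
    linarith [(abs_le.1 this).1]
  have b3 : ⟪m x0, η⟫_ℝ ≤ c * (‖z0‖ ^ 2 * (Real.sqrt ‖δ‖ * Real.sqrt ‖η‖)) :=
    (le_abs_self _).trans h3
  have b4 : -⟪m δ, z0⟫_ℝ ≤ c * (Real.sqrt ‖δ‖ * Real.sqrt ‖η‖ ^ 3) * ‖z0‖ := by
    have h5 := abs_real_inner_le_norm (m δ) z0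
    have h6 := (abs_le.1 h5).1
    have h7 : ‖m δ‖ * ‖z0‖ ≤ c * (Real.sqrt ‖δ‖ * Real.sqrt ‖η‖ ^ 3) * ‖z0‖ :=
      mul_le_mul_of_nonneg_right h4 (norm_nonneg _)
    linarith
  have q1 : Real.sqrt ‖δ‖ ^ 4 = ‖δ‖ ^ 2 := by
    rw [show (4 : ℕ) = 2 * 2 by norm_num, pow_mul, Real.sq_sqrt (norm_nonneg _)]
  have q2 : Real.sqrt ‖η‖ ^ 4 = ‖η‖ ^ 2 := by
    rw [show (4 : ℕ) = 2 * 2 by norm_num, pow_mul, Real.sq_sqrt (norm_nonneg _)]
  have q3 : Real.sqrt ‖η‖ ^ 2 = ‖η‖ := Real.sq_sqrt (norm_nonneg _)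
  have key := young (n := n) (ν := ν) (s := Real.sqrt ‖δ‖) (r := Real.sqrt ‖η‖) (Z := ‖z0‖)
    (Φ := ‖F0‖) (c := c) (κ := c * ‖z0‖ / ν) hν (by field_simp) hn (by
      rw [q1, q2, q3]
      have b2' := mul_le_mul_of_nonneg_left b2 hν.le
      linarith)
  rw [q2] at key
  have h8 : ‖ζ‖ ≤ ‖η‖ + ‖z0‖ := by rw [hζ]; exact norm_add_le _ _
  have h9 : ‖ζ‖ ^ 2 ≤ (‖η‖ + ‖z0‖) ^ 2 := pow_le_pow_left₀ (norm_nonneg _) h8 2
  have h10 := sq_nonneg (‖η‖ - ‖z0‖)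
  rw [div_pow] at key
  have h11 : 0 ≤ ‖F0‖ ^ 2 / ν ^ 2 := by positivity
  nlinarith

/-- the nonlinear resolvent problem -/
theorem solve [CompleteSpace H] [CompleteSpace K] {W : Submodule ℝ (H × K)} {m : H → K}
    {C ν : ℝ} {F0 : K} {x0 : H} {z0 : K} (hF : Frame W m C) (hν : 0 < ν) (h0 : (x0, z0) ∈ W) :
    ∃ a0 ρ : ℝ, 0 < a0 ∧ 0 < ρ ∧ ∀ a, a0 ≤ a → ∃ (x : H) (ζ : K), (x, ζ) ∈ W ∧
      (∀ p ∈ W, ⟪F0 - ν • ζ + m x, p.2⟫_ℝ = ⟪a ^ 2 • (x - x0), p.1⟫_ℝ) ∧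
      a * ‖x - x0‖ ≤ ρ := by
  obtain ⟨b, hb, hbν⟩ : ∃ b : ℝ, 0 < b ∧ b ^ 2 = ν :=
    ⟨Real.sqrt ν, Real.sqrt_pos.2 hν, Real.sq_sqrt hν.le⟩
  have hb' : b ≠ 0 := hb.ne'
  set ρ0 : ℝ := ‖b⁻¹ • (F0 + m x0) - b • z0‖ with hρ0
  have hρ0n : 0 ≤ ρ0 := norm_nonneg _
  set ρ : ℝ := 2 * ρ0 + 1 with hρ
  have hρp : 0 < ρ := by positivity
  set R : ℝ := ‖z0‖ + ρ / b with hR
  have hR0 : 0 ≤ R := by positivity
  have hC := hF.C0
  refine ⟨256 * C * R ^ 4 / b ^ 7 + 1, ρ, by positivity, hρp, ?_⟩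
  intro a ha
  have ha0 : 0 < a := by
    have : 0 ≤ 256 * C * R ^ 4 / b ^ 7 := by positivity
    linarith
  have ha' : a ≠ 0 := ha0.ne'
  have hab : 256 * C * R ^ 4 ≤ a * b ^ 7 := by
    have h1 : 256 * C * R ^ 4 / b ^ 7 ≤ a := by linarith
    rwa [div_le_iff₀ (by positivity)] at h1
  -- the rescaled space
  let L : WithLp 2 (H × K) →L[ℝ] H × K :=
    (a⁻¹ • WithLp.fstL 2 ℝ H K).prod (b⁻¹ • WithLp.sndL 2 ℝ H K)
  have hL : ∀ e, L e = (a⁻¹ • e.fst, b⁻¹ • e.snd) := fun e => rfl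
  let Wa : Submodule ℝ (WithLp 2 (H × K)) := W.comap (L : WithLp 2 (H × K) →ₗ[ℝ] H × K)
  have hmem : ∀ e, e ∈ Wa ↔ (a⁻¹ • e.fst, b⁻¹ • e.snd) ∈ W := fun e => Iff.rfl
  have hcl : IsClosed (Wa : Set (WithLp 2 (H × K))) := hF.closedW.preimage L.continuous
  haveI : CompleteSpace Wa := hcl.completeSpace_coe
  have hmem' : ∀ p ∈ W, toLp 2 (a • p.1, b • p.2) ∈ Wa := by
    intro p hp
    rw [hmem]
    simp only [toLp_fst, toLp_snd]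
    rw [inv_smul_smul₀ ha', inv_smul_smul₀ hb']
    exact hp
  set q0 : WithLp 2 (H × K) := toLp 2 (a • x0, b • z0) with hq0
  have hq0W : q0 ∈ Wa := hmem' _ h0
  let v : WithLp 2 (H × K) → WithLp 2 (H × K) := fun e =>
    toLp 2 (a • x0, b⁻¹ • (F0 + m (a⁻¹ • e.fst)))
  let f : WithLp 2 (H × K) → WithLp 2 (H × K) := fun e => Wa.starProjection (v e)
  -- norm of the components
  have hfst : ∀ e : WithLp 2 (H × K), ‖e.fst‖ ≤ ‖e‖ := fun e => WithLp.norm_fst_le _ e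
  have hsnd : ∀ e : WithLp 2 (H × K), ‖e.snd‖ ≤ ‖e‖ := fun e => WithLp.norm_snd_le _ e
  have hP : ∀ e : WithLp 2 (H × K), ‖Wa.starProjection e‖ ≤ ‖e‖ := by
    intro e
    exact Wa.norm_starProjection_apply_le e
  -- Lipschitz bound
  have hlip : ∀ e e' : WithLp 2 (H × K), e ∈ Wa → e' ∈ Wa → ‖b⁻¹ • e.snd‖ ≤ R →
      ‖b⁻¹ • e'.snd‖ ≤ R → ‖f e - f e'‖ ≤ 1 / 2 * ‖e - e'‖ := by
    intro e e' he he' hr hr'
    have h1 := hF.lips _ ((hmem e).1 he) _ ((hmem e').1 he')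
    simp only at h1
    rw [← smul_sub, ← smul_sub, norm_smul, norm_smul, norm_inv, norm_inv, Real.norm_eq_abs,
      Real.norm_eq_abs, abs_of_pos ha0, abs_of_pos hb] at h1
    set D := ‖e - e'‖ with hD
    have hD0 : 0 ≤ D := norm_nonneg _
    have d1 : ‖e.fst - e'.fst‖ ≤ D := hfst (e - e')
    have d2 : ‖e.snd - e'.snd‖ ≤ D := hsnd (e - e')
    have d3 : (‖b⁻¹ • e.snd‖ + ‖b⁻¹ • e'.snd‖) ^ 4 ≤ (2 * R) ^ 4 :=
      pow_le_pow_left₀ (by positivity) (by linarith) 4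
    have d4 : (b⁻¹ * ‖e.snd - e'.snd‖) ^ 3 ≤ (b⁻¹ * D) ^ 3 :=
      pow_le_pow_left₀ (by positivity) (by gcongr) 3
    have h2 : ‖m (a⁻¹ • e.fst) - m (a⁻¹ • e'.fst)‖ ^ 4 ≤ (b / 2 * D) ^ 4 := by
      calc _ ≤ C * (a⁻¹ * D * (b⁻¹ * D) ^ 3 * (2 * R) ^ 4) := by
            refine h1.trans ?_
            gcongr
        _ = (256 * C * R ^ 4) * (D ^ 4 * (16 * a * b ^ 3)⁻¹) := by
            field_simp
            ring
        _ ≤ (a * b ^ 7) * (D ^ 4 * (16 * a * b ^ 3)⁻¹) := by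
            apply mul_le_mul_of_nonneg_right hab
            positivity
        _ = _ := by
            field_simp
            ring
    have h3 : ‖m (a⁻¹ • e.fst) - m (a⁻¹ • e'.fst)‖ ≤ b / 2 * D :=
      le_of_pow_le_pow_left₀ (by norm_num) (by positivity) h2
    have h4 : v e - v e' = toLp 2 ((0 : H), b⁻¹ • (m (a⁻¹ • e.fst) - m (a⁻¹ • e'.fst))) := by
      change toLp 2 _ - toLp 2 _ = _
      rw [← toLp_sub, Prod.mk_sub_mk, sub_self, ← smul_sub, add_sub_add_left_eq_sub]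
    calc ‖f e - f e'‖ = ‖Wa.starProjection (v e - v e')‖ := by rw [map_sub]
      _ ≤ ‖v e - v e'‖ := hP _
      _ = b⁻¹ * ‖m (a⁻¹ • e.fst) - m (a⁻¹ • e'.fst)‖ := by
          rw [h4, norm_toLp_snd, norm_smul, norm_inv, Real.norm_eq_abs, abs_of_pos hb]
      _ ≤ b⁻¹ * (b / 2 * D) := by gcongr
      _ = 1 / 2 * D := by field_simp
  have hball : ∀ e ∈ Metric.closedBall q0 ρ, ‖b⁻¹ • e.snd‖ ≤ R := by
    intro e he
    rw [mem_closedBall_iff_norm] at he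
    have h1 : ‖e.snd - b • z0‖ ≤ ρ := (hsnd (e - q0)).trans he
    have h2 : b⁻¹ • e.snd = b⁻¹ • (e.snd - b • z0) + z0 := by
      rw [smul_sub, inv_smul_smul₀ hb', sub_add_cancel]
    rw [h2]
    refine (norm_add_le _ _).trans ?_
    rw [norm_smul, norm_inv, Real.norm_eq_abs, abs_of_pos hb, hR, add_comm, div_eq_inv_mul]
    gcongr
  have hfq : ‖f q0 - q0‖ ≤ ρ0 := by
    have h1 : Wa.starProjection q0 = q0 := Submodule.starProjection_eq_self_iff.2 hq0W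
    have h2 : f q0 - q0 = Wa.starProjection (v q0 - q0) := by
      rw [map_sub, h1]
    rw [h2]
    refine (hP _).trans ?_
    have h3 : v q0 - q0 = toLp 2 ((0 : H), b⁻¹ • (F0 + m x0) - b • z0) := by
      change toLp 2 (a • x0, b⁻¹ • (F0 + m (a⁻¹ • (a • x0)))) - toLp 2 _ = _
      rw [← toLp_sub, Prod.mk_sub_mk, sub_self, inv_smul_smul₀ ha']
    rw [h3, norm_toLp_snd]
  set S : Set (WithLp 2 (H × K)) := (Wa : Set (WithLp 2 (H × K))) ∩ Metric.closedBall q0 ρ with hS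
  have hSc : IsComplete S := (hcl.inter Metric.isClosed_closedBall).isComplete
  have hq0S : q0 ∈ S := ⟨hq0W, Metric.mem_closedBall_self hρp.le⟩
  have hmaps : MapsTo f S S := by
    intro e he
    refine ⟨Wa.starProjection_apply_mem _, ?_⟩
    rw [mem_closedBall_iff_norm]
    have h1 := hlip e q0 he.1 hq0W (hball e he.2) (hball q0 hq0S.2)
    have h2 : ‖e - q0‖ ≤ ρ := by
      have := he.2
      rwa [mem_closedBall_iff_norm] at this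
    calc ‖f e - q0‖ = ‖(f e - f q0) + (f q0 - q0)‖ := by congr 1; abel
      _ ≤ ‖f e - f q0‖ + ‖f q0 - q0‖ := norm_add_le _ _
      _ ≤ 1 / 2 * ρ + ρ0 := by
          refine add_le_add (h1.trans ?_) hfq
          gcongr
      _ ≤ ρ := by rw [hρ]; linarith
  have hcontr : ContractingWith (1 / 2) (hmaps.restrict f S S) := by
    refine ⟨by
      rw [← NNReal.coe_lt_coe]; norm_num, ?_⟩
    refine LipschitzWith.of_dist_le_mul ?_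
    intro e e'
    rw [Subtype.dist_eq, Subtype.dist_eq, dist_eq_norm, dist_eq_norm]
    have := hlip e.1 e'.1 e.2.1 e'.2.1 (hball _ e.2.2) (hball _ e'.2.2)
    simpa using this
  obtain ⟨e, heS, hfix, -⟩ := hcontr.exists_fixedPoint' hSc hmaps hq0S (edist_ne_top _ _)
  have hfe : Wa.starProjection (v e) = e := hfix
  refine ⟨a⁻¹ • e.fst, b⁻¹ • e.snd, (hmem e).1 heS.1, ?_, ?_⟩
  · intro p hp
    have h1 := Wa.starProjection_inner_eq_zero (v e) _ (hmem' p hp)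
    rw [hfe, prod_inner_apply] at h1
    replace h1 : ⟪(v e).fst - e.fst, a • p.1⟫_ℝ + ⟪(v e).snd - e.snd, b • p.2⟫_ℝ = 0 := h1
    have e1 : e.fst = a • (a⁻¹ • e.fst) := by rw [smul_inv_smul₀ ha']
    have e2 : e.snd = b • (b⁻¹ • e.snd) := by rw [smul_inv_smul₀ hb']
    set x := a⁻¹ • e.fst with hx
    set ζ := b⁻¹ • e.snd with hζ
    have hv1 : (v e).fst = a • x0 := rfl
    have hv2 : (v e).snd = b⁻¹ • (F0 + m x) := rfl
    rw [hv1, hv2, e1, e2] at h1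
    simp only [inner_sub_left, inner_smul_left, inner_smul_right, inner_add_left,
      RCLike.conj_to_real] at h1 ⊢
    have h2 : b⁻¹ * b = 1 := inv_mul_cancel₀ hb'
    rw [← hbν]
    have h3 : b⁻¹ * (b * (⟪F0, p.2⟫_ℝ + ⟪m x, p.2⟫_ℝ)) = ⟪F0, p.2⟫_ℝ + ⟪m x, p.2⟫_ℝ := by
      rw [← mul_assoc, h2, one_mul]
    nlinarith
  · have h1 := heS.2
    rw [mem_closedBall_iff_norm] at h1
    have h2 : ‖e.fst - a • x0‖ ≤ ρ := (hfst (e - q0)).trans h1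
    have h3 : a * ‖a⁻¹ • e.fst - x0‖ = ‖e.fst - a • x0‖ := by
      have : e.fst - a • x0 = a • (a⁻¹ • e.fst - x0) := by
        rw [smul_sub, smul_inv_smul₀ ha']
      rw [this, norm_smul, Real.norm_eq_abs, abs_of_pos ha0]
    rw [h3]; exact h2

theorem proof : Pool.Agent.W795.HE.S_cmp := by
  intro c hc
  refine ⟨14, by norm_num, ?_⟩
  intro H K _ _ _ _ _ _ W m C ν F0 x0 z0 ε hF hU hν h0 hε
  obtain ⟨a0, ρ, ha0, hρ, h⟩ := solve (F0 := F0) hF hν h0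
  set M : ℝ := 65 * (c * ‖z0‖ / ν) ^ 4 * ν with hM
  have hM0 : 0 ≤ M := by positivity
  have hρε : 0 < ρ / ε := by positivity
  set a : ℝ := a0 + M + ρ / ε + 1 with ha
  have ha1 : 1 ≤ a := by linarith
  obtain ⟨x, ζ, hx, heq, hd⟩ := h a (by linarith)
  refine ⟨x, a ^ 2 • (x - x0), ζ, hx, heq, ?_, ?_⟩
  · have h1 : ρ / ε ≤ a := by linarith
    rw [div_le_iff₀ hε] at h1
    have h2 : a * ‖x - x0‖ ≤ a * ε := hd.trans h1
    exact le_of_mul_le_mul_left h2 (by linarith)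
  · refine apriori hF hU hν h0 hx ?_ heq
    have : a ≤ a ^ 2 := by nlinarith
    linarith

end Pool.Agent.W405.HE.Cmp
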